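import Pool.Agent.Helper15.LP.Defs

set_option autoImplicit false

open Finset
open scoped Classical
open Pool.Agent.Helper15.LR

namespace Pool.Agent.Helper15.LP

noncomputable section

/-- diagonalisation of a real symmetric matrix -/
theorem OPN_diag {V : Type} [Fintype V] [DecidableEq V] (B : Matrix V V ℝ) (hB : B.IsSymm) :
    ∃ (U : Matrix V V ℝ) (μ : V → ℝ), U * U.transpose = 1 ∧ U.transpose * U = 1 ∧
      ∀ k : ℕ, B ^ k = U * Matrix.diagonal (fun i => μ i ^ k) * U.transpose := by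
  have hH : B.IsHermitian := by
    unfold Matrix.IsHermitian
    rw [Matrix.conjTranspose_eq_transpose_of_trivial]
    exact hB
  have h1 := hH.spectral_theorem
  rw [Unitary.conjStarAlgAut_apply] at h1
  have hs : star (hH.eigenvectorUnitary : Matrix V V ℝ) =
      (hH.eigenvectorUnitary : Matrix V V ℝ).transpose := by
    rw [Matrix.star_eq_conjTranspose, Matrix.conjTranspose_eq_transpose_of_trivial]
  have hu1 : (hH.eigenvectorUnitary : Matrix V V ℝ) *
      (hH.eigenvectorUnitary : Matrix V V ℝ).transpose = 1 := by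
    rw [← hs]
    exact Unitary.coe_mul_star_self _
  have hu2 : (hH.eigenvectorUnitary : Matrix V V ℝ).transpose *
      (hH.eigenvectorUnitary : Matrix V V ℝ) = 1 := by
    rw [← hs]
    exact Unitary.coe_star_mul_self _
  have h2 : B = (hH.eigenvectorUnitary : Matrix V V ℝ) * Matrix.diagonal hH.eigenvalues *
      (hH.eigenvectorUnitary : Matrix V V ℝ).transpose := by
    rw [← hs]
    exact h1
  obtain ⟨U, μ, hu1, hu2, h2⟩ : ∃ (U : Matrix V V ℝ) (μ : V → ℝ), U * U.transpose = 1 ∧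
      U.transpose * U = 1 ∧ B = U * Matrix.diagonal μ * U.transpose := ⟨_, _, hu1, hu2, h2⟩
  refine ⟨U, μ, hu1, hu2, ?_⟩
  intro k
  induction k with
  | zero =>
    simp only [pow_zero]
    rw [Matrix.diagonal_one, Matrix.mul_one, hu1]
  | succ k ih =>
    rw [pow_succ, ih]
    have h3 : Matrix.diagonal (fun i => μ i ^ (k + 1)) =
        Matrix.diagonal (fun i => μ i ^ k) * Matrix.diagonal μ := by
      rw [Matrix.diagonal_mul_diagonal]
      congr 1
    rw [h3]
    calc U * Matrix.diagonal (fun i => μ i ^ k) * U.transpose * B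
        = U * Matrix.diagonal (fun i => μ i ^ k) * U.transpose *
          (U * Matrix.diagonal μ * U.transpose) := by rw [← h2]
      _ = U * Matrix.diagonal (fun i => μ i ^ k) * (U.transpose * U) *
          Matrix.diagonal μ * U.transpose := by
          simp only [Matrix.mul_assoc]
      _ = U * (Matrix.diagonal (fun i => μ i ^ k) *
            Matrix.diagonal μ) * U.transpose := by
          rw [hu2, Matrix.mul_one]
          simp only [Matrix.mul_assoc]

theorem OPN_trace {V : Type} [Fintype V] [DecidableEq V] (B : Matrix V V ℝ) (hB : B.IsSymm)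
    (m : ℕ) : 0 ≤ (B ^ (2 * m)).trace ∧
    ∀ (f h : V → ℝ) (T : ℝ), ∑ v, f v ^ 2 ≤ 1 → ∑ v, h v ^ 2 ≤ 1 → 0 ≤ T →
      T < |f ⬝ᵥ (B.mulVec h)| → T ^ (2 * m) ≤ (B ^ (2 * m)).trace := by
  obtain ⟨U, μ, hu1, hu2, hp⟩ := OPN_diag B hB
  have htr : (B ^ (2 * m)).trace = ∑ i, μ i ^ (2 * m) := by
    rw [hp, Matrix.trace_mul_comm, ← Matrix.mul_assoc, hu2, Matrix.one_mul, Matrix.trace_diagonal]
  have hnn : ∀ i, 0 ≤ μ i ^ (2 * m) := fun i => by
    rw [pow_mul]
    positivity
  refine ⟨by rw [htr]; exact Finset.sum_nonneg (fun i _ => hnn i), ?_⟩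
  intro f h T hf hh hT hlt
  have hnorm : ∀ x : V → ℝ, ∑ i, (U.transpose.mulVec x) i ^ 2 = ∑ i, x i ^ 2 := by
    intro x
    have h1 : ∑ i, (U.transpose.mulVec x) i ^ 2 =
        (U.transpose.mulVec x) ⬝ᵥ (U.transpose.mulVec x) := by
      unfold dotProduct
      exact Finset.sum_congr rfl (fun i _ => by ring)
    have h2 : ∑ i, x i ^ 2 = x ⬝ᵥ x := by
      unfold dotProduct
      exact Finset.sum_congr rfl (fun i _ => by ring)
    rw [h1, h2, Matrix.dotProduct_mulVec, Matrix.vecMul_transpose, Matrix.mulVec_mulVec, hu1,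
      Matrix.one_mulVec]
  have hbil : f ⬝ᵥ (B.mulVec h) =
      ∑ i, (U.transpose.mulVec f) i * (μ i * (U.transpose.mulVec h) i) := by
    have h1 := hp 1
    simp only [pow_one] at h1
    rw [h1, ← Matrix.mulVec_mulVec, ← Matrix.mulVec_mulVec, Matrix.dotProduct_mulVec]
    unfold dotProduct
    apply Finset.sum_congr rfl
    intro i _
    rw [Matrix.mulVec_diagonal]
    simp only [Matrix.mulVec_transpose]
  have hex : ∃ i, T < |μ i| := by
    by_contra hcon
    push Not at hcon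
    apply absurd hlt
    rw [not_lt, hbil]
    calc |∑ i, (U.transpose.mulVec f) i * (μ i * (U.transpose.mulVec h) i)|
        ≤ ∑ i, |(U.transpose.mulVec f) i * (μ i * (U.transpose.mulVec h) i)| :=
          Finset.abs_sum_le_sum_abs _ _
      _ ≤ ∑ i, T * (((U.transpose.mulVec f) i ^ 2 + (U.transpose.mulVec h) i ^ 2) / 2) := by
          apply Finset.sum_le_sum
          intro i _
          rw [abs_mul, abs_mul]
          have h1 := abs_nonneg ((U.transpose.mulVec f) i)
          have h2 := abs_nonneg ((U.transpose.mulVec h) i)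
          have h3 := hcon i
          have h4 := abs_nonneg (μ i)
          rw [← sq_abs ((U.transpose.mulVec f) i), ← sq_abs ((U.transpose.mulVec h) i)]
          generalize |(U.transpose.mulVec f) i| = x at *
          generalize |(U.transpose.mulVec h) i| = y at *
          calc x * (|μ i| * y) = |μ i| * (x * y) := by ring
            _ ≤ T * (x * y) := mul_le_mul_of_nonneg_right h3 (mul_nonneg h1 h2)
            _ ≤ T * ((x ^ 2 + y ^ 2) / 2) :=
                mul_le_mul_of_nonneg_left (by nlinarith [sq_nonneg (x - y)]) hT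
      _ = T * ((∑ i, (U.transpose.mulVec f) i ^ 2 + ∑ i, (U.transpose.mulVec h) i ^ 2) / 2) := by
          rw [← Finset.mul_sum, ← Finset.sum_div, Finset.sum_add_distrib]
      _ ≤ T * 1 := by
          apply mul_le_mul_of_nonneg_left _ hT
          rw [hnorm f, hnorm h]
          linarith
      _ = T := mul_one T
  obtain ⟨i, hi⟩ := hex
  rw [htr]
  calc T ^ (2 * m) ≤ |μ i| ^ (2 * m) := pow_le_pow_left₀ hT hi.le _
    _ = μ i ^ (2 * m) := by rw [pow_mul, sq_abs, ← pow_mul]
    _ ≤ ∑ i, μ i ^ (2 * m) := Finset.single_le_sum (fun i _ => hnn i) (Finset.mem_univ i)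

/-- rows of the adjacency matrix -/
def OPN_a {V : Type} [Fintype V] (G : SimpleGraph V) (v i : V) : ℝ := if i ∈ Nb G v then 1 else 0

/-- rank one matrices -/
def OPN_H {V : Type} [Fintype V] (G : SimpleGraph V) (v : V) : Matrix V V ℝ :=
  Matrix.of (fun i j => OPN_a G v i * OPN_a G v j)

theorem OPN_av {V : Type} [Fintype V] (G : SimpleGraph V) (v : V) (x : V → ℝ) :
    ∑ i, OPN_a G v i * x i = Av G x v := by
  unfold OPN_a Av
  simp only [ite_mul, one_mul, zero_mul]
  rw [Finset.sum_ite_mem, Finset.univ_inter]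

theorem OPN_sq {V : Type} [Fintype V] (G : SimpleGraph V) (v : V) :
    ∑ i, OPN_a G v i ^ 2 = (Nb G v).card := by
  unfold OPN_a
  simp only [ite_pow, one_pow, ne_eq, OfNat.ofNat_ne_zero, not_false_eq_true, zero_pow]
  rw [Finset.sum_ite_mem, Finset.univ_inter]
  simp

theorem OPN_mulVec {V : Type} [Fintype V] (G : SimpleGraph V) (v : V) (x : V → ℝ) (i : V) :
    (OPN_H G v).mulVec x i = OPN_a G v i * Av G x v := by
  rw [← OPN_av, Finset.mul_sum]
  unfold Matrix.mulVec dotProduct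
  apply Finset.sum_congr rfl
  intro j _
  show OPN_a G v i * OPN_a G v j * x j = _
  ring

theorem OPN_swap {V : Type} [Fintype V] (G : SimpleGraph V) (D : ℕ) (hD : Reg G D) (x : V → ℝ) :
    ∑ v, ∑ u ∈ Nb G v, x u = D * ∑ u, x u := by
  have h1 : ∀ v, ∑ u ∈ Nb G v, x u = ∑ u, if G.Adj v u then x u else 0 := by
    intro v
    unfold Nb
    rw [Finset.sum_filter]
  rw [Finset.sum_congr rfl (fun v _ => h1 v), Finset.sum_comm, Finset.mul_sum]
  apply Finset.sum_congr rfl
  intro u _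
  rw [← Finset.sum_filter, Finset.sum_const, nsmul_eq_mul]
  congr 1
  have h2 := hD u
  unfold Nb at h2
  have h3 : (univ.filter (fun v => G.Adj v u)) = univ.filter (fun v => G.Adj u v) := by
    ext v
    simp only [mem_filter, mem_univ, true_and]
    exact ⟨fun h => h.symm, fun h => h.symm⟩
  rw [h3, h2]

theorem OPN_Av_le {V : Type} [Fintype V] (G : SimpleGraph V) (D : ℕ) (hD : Reg G D)
    (x : V → ℝ) : ∑ v, (Av G x v) ^ 2 ≤ (D : ℝ) ^ 2 * ∑ v, x v ^ 2 := by
  have h1 : ∀ v, (Av G x v) ^ 2 ≤ D * ∑ u ∈ Nb G v, x u ^ 2 := by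
    intro v
    have h2 := sq_sum_le_card_mul_sum_sq (s := Nb G v) (f := x)
    rw [hD v] at h2
    exact h2
  calc ∑ v, (Av G x v) ^ 2 ≤ ∑ v, D * ∑ u ∈ Nb G v, x u ^ 2 :=
        Finset.sum_le_sum (fun v _ => h1 v)
    _ = D * (D * ∑ v, x v ^ 2) := by
        rw [← Finset.mul_sum, OPN_swap G D hD]
    _ = (D : ℝ) ^ 2 * ∑ v, x v ^ 2 := by ring

theorem OPN_num (m D : ℕ) (hm : 1 ≤ m) (hD : 1 ≤ D) :
    ((2 * (m : ℝ)) ^ m * ((D : ℝ) ^ 3) ^ m) ≤
      (7 * Real.sqrt m * (D * Real.sqrt D)) ^ (2 * m) * Real.exp (-(3 * m)) := by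
  have hm' : (0 : ℝ) < m := by exact_mod_cast hm
  have hD' : (0 : ℝ) < D := by exact_mod_cast hD
  have h1 : (7 * Real.sqrt m * (D * Real.sqrt D)) ^ 2 = 49 * m * (D : ℝ) ^ 3 := by
    rw [mul_pow, mul_pow, mul_pow, Real.sq_sqrt hm'.le, Real.sq_sqrt hD'.le]
    ring
  rw [pow_mul, h1, ← mul_pow]
  have h2 : Real.exp (-(3 * (m : ℝ))) = (Real.exp (-3)) ^ m := by
    rw [← Real.exp_nat_mul]
    congr 1
    ring
  rw [h2, ← mul_pow]
  apply pow_le_pow_left₀ (by positivity)
  have h3 : (2 : ℝ) / 49 ≤ Real.exp (-3) := by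
    rw [Real.exp_neg, div_le_iff₀ (by norm_num), ← div_eq_inv_mul, le_div_iff₀ (Real.exp_pos _)]
    have h4 : Real.exp 3 = Real.exp 1 ^ 3 := by
      rw [← Real.exp_nat_mul]
      norm_num
    rw [h4]
    have h5 := Real.exp_one_lt_d9
    have h6 : Real.exp 1 ^ 3 ≤ (2.7182818286 : ℝ) ^ 3 :=
      pow_le_pow_left₀ (Real.exp_pos _).le h5.le 3
    norm_num at h6 ⊢
    linarith
  have h7 : (0 : ℝ) ≤ m * (D : ℝ) ^ 3 := by positivity
  nlinarith

theorem lp_OPN (hKHIN : Khintchine_stmt) (hPPCount : PPCount_stmt) : OpNorm_stmt := by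
  intro V _ G D m hreg hD hm
  have hm' : (0 : ℝ) < m := by exact_mod_cast hm
  have hD' : (0 : ℝ) < D := by exact_mod_cast hD
  have hsymm : ∀ v, (OPN_H G v).IsSymm := by
    intro v
    ext i j
    simp only [Matrix.transpose_apply, OPN_H, Matrix.of_apply]
    ring
  have hs : ∀ x : V → ℝ, ∑ i, ∑ v, ((OPN_H G i).mulVec x v) ^ 2 ≤ (D : ℝ) ^ 3 * ∑ v, x v ^ 2 := by
    intro x
    have h1 : ∀ i, ∑ v, ((OPN_H G i).mulVec x v) ^ 2 = D * (Av G x i) ^ 2 := by
      intro i
      simp only [OPN_mulVec, mul_pow]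
      rw [← Finset.sum_mul, OPN_sq, hreg i]
    rw [Finset.sum_congr rfl (fun i _ => h1 i), ← Finset.mul_sum]
    calc (D : ℝ) * ∑ i, (Av G x i) ^ 2 ≤ D * ((D : ℝ) ^ 2 * ∑ v, x v ^ 2) :=
          mul_le_mul_of_nonneg_left (OPN_Av_le G D hreg x) hD'.le
      _ = (D : ℝ) ^ 3 * ∑ v, x v ^ 2 := by ring
  have hk := hKHIN V V (OPN_H G) ((D : ℝ) ^ 3) m hsymm (by positivity) hs
  set T : ℝ := 7 * Real.sqrt m * (D * Real.sqrt D) with hT
  have hTpos : 0 < T := by
    have h1 : 0 < Real.sqrt m := Real.sqrt_pos.mpr hm'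
    have h2 : 0 < Real.sqrt D := Real.sqrt_pos.mpr hD'
    positivity
  have hBs : ∀ ε : V → Bool, (∑ i, sgn (ε i) • OPN_H G i).IsSymm := by
    intro ε
    unfold Matrix.IsSymm
    rw [Matrix.transpose_sum]
    apply Finset.sum_congr rfl
    intro i _
    rw [Matrix.transpose_smul, hsymm i]
  have hbil : ∀ (ε : V → Bool) (f h : V → ℝ),
      f ⬝ᵥ ((∑ i, sgn (ε i) • OPN_H G i).mulVec h) = ∑ v, sgn (ε v) * Av G f v * Av G h v := by
    intro ε f h
    rw [Matrix.sum_mulVec, dotProduct_sum]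
    apply Finset.sum_congr rfl
    intro v _
    rw [Matrix.smul_mulVec, dotProduct_smul, smul_eq_mul]
    have h1 : f ⬝ᵥ (OPN_H G v).mulVec h = Av G f v * Av G h v := by
      unfold dotProduct
      simp only [OPN_mulVec]
      rw [← OPN_av G v f, Finset.sum_mul]
      apply Finset.sum_congr rfl
      intro i _
      ring
    rw [h1]
    ring
  rw [hPPCount]
  set S : Finset (V → Bool) := univ.filter (fun x => x ∈ {x : V → Bool | ∃ f h : V → ℝ,
    S2 f ≤ 1 ∧ S2 h ≤ 1 ∧ T < |∑ v, sgn (x v) * Av G f v * Av G h v|}) with hS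
  have hcount : (S.card : ℝ) * T ^ (2 * m) ≤
      2 ^ Fintype.card V * (Fintype.card V * ((2 * m) ^ m * ((D : ℝ) ^ 3) ^ m)) := by
    refine le_trans ?_ hk
    calc (S.card : ℝ) * T ^ (2 * m) = ∑ ε ∈ S, T ^ (2 * m) := by
          rw [Finset.sum_const, nsmul_eq_mul]
      _ ≤ ∑ ε ∈ S, ((∑ i, sgn (ε i) • OPN_H G i) ^ (2 * m)).trace := by
          apply Finset.sum_le_sum
          intro ε hε
          rw [hS, mem_filter] at hε
          obtain ⟨-, f, h, hf, hh, hlt⟩ := hε
          refine (OPN_trace _ (hBs ε) m).2 f h T hf hh hTpos.le ?_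
          rw [hbil]
          exact hlt
      _ ≤ ∑ ε : V → Bool, ((∑ i, sgn (ε i) • OPN_H G i) ^ (2 * m)).trace :=
          Finset.sum_le_sum_of_subset_of_nonneg (Finset.subset_univ _)
            (fun ε _ _ => (OPN_trace _ (hBs ε) m).1)
  have hnum := OPN_num m D hm hD
  rw [div_le_iff₀ (by positivity)]
  have hTm : 0 < T ^ (2 * m) := by positivity
  refine le_of_mul_le_mul_right ?_ hTm
  calc (S.card : ℝ) * T ^ (2 * m) ≤
      2 ^ Fintype.card V * (Fintype.card V * ((2 * m) ^ m * ((D : ℝ) ^ 3) ^ m)) := hcount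
    _ ≤ 2 ^ Fintype.card V * (Fintype.card V * (T ^ (2 * m) * Real.exp (-(3 * m)))) := by
        apply mul_le_mul_of_nonneg_left _ (by positivity)
        exact mul_le_mul_of_nonneg_left hnum (by positivity)
    _ = Fintype.card V * Real.exp (-(3 * m)) * 2 ^ Fintype.card V * T ^ (2 * m) := by ring

end

end Pool.Agent.Helper15.LP
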